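import Pool.Agent.R972.CM.Main3

/-!
# The simplex is the only maximiser of `E exp (λ max ξ_i)` (MP_c11bd2_pr, Q2)
-/

set_option autoImplicit false

open MeasureTheory ProbabilityTheory

namespace Pool.Agent.Results.MP_c11bd2_pr.ExpMaxEquality

/-- the correlation matrix of the regular simplex, `(m / (m - 1)) (I - J / m)` -/
noncomputable def Gtri (m : ℕ) : Matrix (Fin m) (Fin m) ℝ :=
  ((m:ℝ) / (m - 1)) • ((1 : Matrix (Fin m) (Fin m) ℝ) - (1 / (m:ℝ)) • (Matrix.of fun _ _ => (1:ℝ)))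

/-- `E exp (l max_i ξ_i)` for `ξ ~ N(0,G)` -/
noncomputable def expMax (m : ℕ) (G : Matrix (Fin m) (Fin m) ℝ) (l : ℝ) : ℝ :=
  ∫ x : EuclideanSpace ℝ (Fin m), Real.exp (l * ⨆ i, x i) ∂(multivariateGaussian 0 G)

/-- For every `m ≥ 2`, every correlation matrix `G` and every `l > 0`: the random variable
`exp (l max_i ξ_i)` is integrable for `ξ ~ N(0,G)` and for `ξ ~ N(0,Gtri)`, its two expectations
coincide if and only if `G = Gtri`, and the one for `G` is strictly smaller if `G ≠ Gtri`. -/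
theorem result (m : ℕ) (hm : 2 ≤ m) (G : Matrix (Fin m) (Fin m) ℝ) (hG : G.PosSemidef)
    (hd : ∀ i, G i i = 1) (l : ℝ) (hl : 0 < l) :
    (Integrable (fun x : EuclideanSpace ℝ (Fin m) => Real.exp (l * ⨆ i, x i))
      (multivariateGaussian 0 G)) ∧
    (Integrable (fun x : EuclideanSpace ℝ (Fin m) => Real.exp (l * ⨆ i, x i))
      (multivariateGaussian 0 (Gtri m))) ∧
    (expMax m G l = expMax m (Gtri m) l ↔ G = Gtri m) ∧
    (G ≠ Gtri m → expMax m G l < expMax m (Gtri m) l) :=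
  ⟨Pool.Agent.R972.CM.integ m (by omega) G hG l,
    Pool.Agent.R972.CM.integ m (by omega) (Gtri m) (Pool.Agent.R972.CM.Gt_psd m hm) l,
    Pool.Agent.R972.CM.Q2_iff m hm G hG hd l hl,
    fun hne => Pool.Agent.R972.CM.strictQ2 m hm G hG hd hne l hl⟩

end Pool.Agent.Results.MP_c11bd2_pr.ExpMaxEquality
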