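import Pool.Agent.R972.CM.Main1

/-!
# Equality in the Gaussian orthant comparison forces independence (MP_c11bd2_pr, Q1)
-/

set_option autoImplicit false

open MeasureTheory ProbabilityTheory

namespace Pool.Agent.Results.MP_c11bd2_pr.OrthantEquality

/-- `R` is an admissible correlation matrix: positive semidefinite, unit diagonal, and
`R - J / m` positive semidefinite, `J` being the all ones matrix. -/
structure Admissible (m : ℕ) (R : Matrix (Fin m) (Fin m) ℝ) : Prop where
  psd : R.PosSemidef
  diag : ∀ i, R i i = 1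
  dom : (R - (1 / (m:ℝ)) • (Matrix.of fun _ _ => (1:ℝ))).PosSemidef

/-- For every `m ≥ 2`, every admissible `R` and every real `c`: for `X ~ N(0,R)` one has
`P(X_i ≤ c for all i) = Φ(c)^m` if and only if `R` is the identity matrix; and if `R` is not the
identity then `P(X_i ≤ c for all i) > Φ(c)^m`. -/
theorem result (m : ℕ) (hm : 2 ≤ m) (R : Matrix (Fin m) (Fin m) ℝ) (hR : Admissible m R) (c : ℝ) :
    ((multivariateGaussian 0 R).real {x : EuclideanSpace ℝ (Fin m) | ∀ i, x i ≤ c} =
      (cdf (gaussianReal 0 1) c) ^ m ↔ R = 1) ∧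
    (R ≠ 1 → (cdf (gaussianReal 0 1) c) ^ m <
      (multivariateGaussian 0 R).real {x : EuclideanSpace ℝ (Fin m) | ∀ i, x i ≤ c}) :=
  ⟨Pool.Agent.R972.CM.Q1_iff m (by omega) R hR.psd hR.diag hR.dom c,
    fun hne => Pool.Agent.R972.CM.strictQ1 m (by omega) R hR.psd hR.diag hR.dom hne c⟩

end Pool.Agent.Results.MP_c11bd2_pr.OrthantEquality
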